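import Pool.Agent.U133.HL.All

set_option autoImplicit false

/-!
# The Hall-Lang bound for all but boundedly many integral points in each coset of `2 E(ℚ)`

Let `E : y ^ 2 = x ^ 3 + A x + B`, `4 A ^ 3 + 27 B ^ 2 ≠ 0` and `|A|, |B| ≤ H`. The inequality of the
question with `M = 7`, `max |x| |y| ≤ (2 H) ^ 7`, is proved for all integral points of `E` with at most `96`
exceptions in each coset of `2 E(ℚ)`, so with at most `96 [E(ℚ) : 2 E(ℚ)]` exceptions altogether. For the
quadratic twists `c y ^ 2 = x ^ 3 + A x + B` there are at most `48` integers `x` with `|x| ≥ (2 H) ^ 4`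
in each coset, and at most `8` with `|x| ≥ (2 H) ^ 19688`; these bounds do not depend on `c`.

The proof (files `U133/HL`, `U133/SE`, `U133/HP`, `U133/GP`, `U133/WR`). Let `x`, `z` be integral abscissas
of points in the same coset, `|x| < |z|`. By the 2-descent `(x - T)(z - T)` is a square in
`ℚ[T]/(T ^ 3 + A T + B)`. So the values of a polynomial with rational coefficients at the roots `θ` are a
constant multiple of `√((1 - θ/x)(1 - θ/z))`, if `x` and `z` are in the same of four boxes. Put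
`|z| = |x| ^ L`.

* `(2 H) ^ 4 ≤ |x| ≤ (2 H) ^ 19688`: the divided difference of this function at the three roots is not zero
  and too small. This gives a cubic growth with a loss of `D ^ 2`, so at most `40` integers.
* `|x| ≥ (2 H) ^ 19688`: if `L < 11 / 4`, the same argument. If `L > 7.5` we use the Hermite-Padé
  approximation of some order `n` of the three functions `√(1 - θ z)` at `z = 0` and a zero estimate. Of
  three integers in the same box two have `L > 7.5`, because `(11 / 4) ^ 2 > 7.5`.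
-/

namespace Pool.Agent.Results.MP_a1107e_nt.AllButFewPerCoset

open Polynomial Pool.Agent.U133

/-- the elliptic curve `y ^ 2 = x ^ 3 + A x + B` over `ℚ` -/
def curve (A B : ℤ) : WeierstrassCurve.Affine ℚ := ⟨0, 0, 0, A, B⟩

/-- `b (x - T)(y - T)` is a square modulo `T ^ 3 + A T + B` for some rational `b ≠ 0` -/
def SameClass (A B x y : ℤ) : Prop :=
  ∃ b : ℚ, b ≠ 0 ∧ ∃ P : ℚ[X], (X ^ 3 + C (A : ℚ) * X + C (B : ℚ)) ∣
    P ^ 2 - C b * ((C (x : ℚ) - X) * (C (y : ℚ) - X))

/-- **The Hall-Lang bound with at most 96 exceptions in each coset of `2 E(ℚ)`.** -/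
theorem result (A B : ℤ) (hD : 4 * A ^ 3 + 27 * B ^ 2 ≠ 0) (H : ℕ) (hA : |A| ≤ H) (hB : |B| ≤ H) :
    -- (1) the integral points of the curve
    (∀ (N : ℕ) (Q : Fin N → (curve A B).Point),
      (∀ P : (curve A B).Point, ∃ (i : Fin N) (R : (curve A B).Point), P = Q i + (R + R)) →
      {p : ℤ × ℤ | p.2 ^ 2 = p.1 ^ 3 + A * p.1 + B ∧
        (2 * (H : ℝ)) ^ 7 < max |(p.1 : ℝ)| |(p.2 : ℝ)|}.encard ≤ (96 * N : ℕ)) ∧
    -- (2) the quadratic twists, with bounds that do not depend on `c`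
    (∀ c : ℤ, c ≠ 0 → ∀ (N : ℕ) (Q : Fin N → (curve (A * c ^ 2) (B * c ^ 3)).Point),
      (∀ P : (curve (A * c ^ 2) (B * c ^ 3)).Point,
        ∃ (i : Fin N) (R : (curve (A * c ^ 2) (B * c ^ 3)).Point), P = Q i + (R + R)) →
      {x : ℤ | (2 * (H : ℝ)) ^ 4 ≤ |(x : ℝ)| ∧
        ∃ y : ℚ, c * y ^ 2 = x ^ 3 + A * x + B}.encard ≤ (48 * N : ℕ) ∧
      {x : ℤ | (2 * (H : ℝ)) ^ 19688 ≤ |(x : ℝ)| ∧
        ∃ y : ℚ, c * y ^ 2 = x ^ 3 + A * x + B}.encard ≤ (8 * N : ℕ)) ∧
    -- (3) one class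
    (∀ S : Finset ℤ, (∀ x ∈ S, ∀ y ∈ S, SameClass A B x y) →
      ((∀ x ∈ S, (2 * (H : ℝ)) ^ 4 ≤ (x : ℝ)) → S.card ≤ 48) ∧
      ((∀ x ∈ S, (2 * (H : ℝ)) ^ 19688 ≤ (x : ℝ)) → S.card ≤ 8)) := by
  have hH : 1 ≤ H := by
    rcases Nat.eq_zero_or_pos H with h0 | h0
    · exfalso
      subst h0
      have h1 : A = 0 := abs_nonpos_iff.mp (by simpa using hA)
      have h2 : B = 0 := abs_nonpos_iff.mp (by simpa using hB)
      apply hD
      rw [h1, h2]
      norm_num
    · exact h0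
  refine ⟨fun N Q hQ => ?_, fun c hc N Q hQ => ⟨?_, ?_⟩, fun S hcl => ?_⟩
  · exact HL.encard_le fun t ht => HL.points4 hD hH hA hB N Q hQ t ht
  · exact HL.encard_le fun t ht => HL.cosets4 hD hH hA hB hc rfl rfl N Q hQ t ht
  · exact HL.encard_le fun t ht => HL.all_cosets' hD hH hA hB hc rfl rfl N Q hQ t ht
  · have hcl' : ∀ x ∈ S, ∀ y ∈ S, GP.SameClass (WR.cub A B) x y := by
      intro x hx y hy
      obtain ⟨b, hb, P, hP⟩ := hcl x hx y hy
      exact ⟨b, hb, P, by rw [WR.cub_map]; exact hP⟩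
    refine ⟨fun hS => HL.class_pos hD hH hA hB S hS hcl', fun hS => ?_⟩
    refine HL.one_class hD hH hA hB S true (fun x hx => ?_)
      (fun x hx => (hS x hx).trans (le_abs_self _)) hcl'
    have h1 : (1 : ℝ) ≤ H := by exact_mod_cast hH
    have h2 : (0 : ℝ) < (2 * (H : ℝ)) ^ 19688 := by positivity
    have h3 := h2.trans_le (hS x hx)
    rw [decide_eq_true_eq]
    exact_mod_cast h3

end Pool.Agent.Results.MP_a1107e_nt.AllButFewPerCoset
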