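import Mathlib
import Pool.Agent.U964.ML.Pow

/-!
# Integral points of Weierstrass curves with a power quotient: the Hall–Lang bound

Let `(x, y)` be an integral point of `y² = x³ + A x + B`. The quotient `y² / x³` is close to `1`. Suppose that
it is, up to a fixed finite set of primes, an `n`-th power; for instance `x` and `y` are `n`-th powers, or
`x = t² X ^ n`, `y = t³ Y ^ n` with any `t`.

Then for all `n ≥ N` and ALL `A`, `B`:

* `|x| ≤ K H ^ (κ / 2)` and `|y| ≤ K H ^ (3 κ / 4)` if `A x + B ≠ 0`, where `H = max (|A|, |B|)` and `κ > 1` is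
  arbitrary (`N` and `K` depend on `κ` and on the set of primes only);
* in all cases `max (|x|, |y|) ≤ K H ^ (3 / 2)`, the Hall–Lang bound;
* for `n ≥ N (1 + log H)` the points `(s X ^ n, t Y ^ n)` with `Y ≠ 0` and `s`, `t` composed of the primes of
  the set have `|X| ≤ 1`.

The proof is by a lower bound for linear forms in the logarithms of rational numbers which is linear in the
height of the number whose coefficient is `n` (`U964.ML`).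
-/

set_option autoImplicit false

namespace Pool.Agent.Results.MP_a1107e_nt.AlmostPowers

/-- up to the sign and up to the primes in `S`, the rational number `r` is an `n`-th power -/
def IsAlmostPower (S : Finset ℕ) (n : ℕ) (r : ℚ) : Prop :=
  ∀ q : ℕ, q.Prime → q ∉ S → (n : ℤ) ∣ padicValRat q r

/-- all prime factors of `s` are in `S` -/
def IsSInteger (S : Finset ℕ) (s : ℤ) : Prop := s ≠ 0 ∧ ∀ q : ℕ, q.Prime → (q : ℤ) ∣ s → q ∈ S

/-- the larger one of `|A|` and `|B|` -/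
def size (A B : ℤ) : ℝ := ((max |A| |B| : ℤ) : ℝ)

lemma size_ge {A B : ℤ} (h : 4 * A ^ 3 + 27 * B ^ 2 ≠ 0) : 1 ≤ size A B := by
  rw [size]
  have h1 : 1 ≤ max |A| |B| := by
    by_contra hc
    rw [not_le, max_lt_iff] at hc
    have hA : A = 0 := abs_eq_zero.1 (by have := abs_nonneg A; omega)
    have hB : B = 0 := abs_eq_zero.1 (by have := abs_nonneg B; omega)
    exact h (by rw [hA, hB]; norm_num)
  exact_mod_cast h1

lemma le_size (A B : ℤ) : |(A : ℝ)| ≤ size A B ∧ |(B : ℝ)| ≤ size A B := by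
  rw [size]
  constructor
  · exact_mod_cast le_max_left |A| |B|
  · exact_mod_cast le_max_right |A| |B|

/-- the points with `A x + B ≠ 0` -/
lemma main (S : Finset ℕ) (κ : ℝ) (hκ : 1 < κ) : ∃ (N : ℕ) (K : ℝ), 1 ≤ K ∧
    ∀ A B : ℤ, 4 * A ^ 3 + 27 * B ^ 2 ≠ 0 → ∀ x y : ℤ, y ^ 2 = x ^ 3 + A * x + B →
      x ≠ 0 → y ≠ 0 → ∀ n : ℕ, N ≤ n → IsAlmostPower S n ((y : ℚ) ^ 2 / (x : ℚ) ^ 3) →
      A * x + B ≠ 0 →
        |(x : ℝ)| ≤ K * size A B ^ (κ / 2) ∧ |(y : ℝ)| ≤ K * size A B ^ (3 * κ / 4) := by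
  have hκ0 : 0 < κ := by linarith
  have hκ1 : 1 / κ < 1 := by rw [div_lt_one hκ0]; exact hκ
  have hκ2 : 0 < 1 / κ := by positivity
  obtain ⟨δ, hδ⟩ : ∃ δ : ℝ, δ = 2 * (1 - 1 / κ) / 3 := ⟨_, rfl⟩
  have hδ0 : 0 < δ := by rw [hδ]; apply div_pos <;> linarith
  have hδ1 : δ ≤ 1 := by rw [hδ]; linarith
  obtain ⟨N, B0, hB1, hN⟩ := Pool.Agent.U964.ML.pow_gap S δ hδ0
  have hBr : (1:ℝ) ≤ B0 := by exact_mod_cast hB1
  obtain ⟨c, hc⟩ : ∃ c : ℝ, c = (2:ℝ) ^ κ := ⟨_, rfl⟩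
  have hc1 : 1 ≤ c := by rw [hc]; exact Real.one_le_rpow (by norm_num) hκ0.le
  have hB3 : (1:ℝ) ≤ (B0:ℝ) ^ 3 := one_le_pow₀ hBr
  refine ⟨N, 2 * B0 ^ 3 * c, by nlinarith, ?_⟩
  intro A B hAB x y hxy hx hy n hn hAP hne
  obtain ⟨H, hH⟩ : ∃ H : ℝ, H = size A B := ⟨_, rfl⟩
  have hH1 : 1 ≤ H := by rw [hH]; exact size_ge hAB
  have hAH : |(A:ℝ)| ≤ H := by rw [hH]; exact (le_size A B).1
  have hBH : |(B:ℝ)| ≤ H := by rw [hH]; exact (le_size A B).2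
  rw [← hH]
  have hH0 : 0 < H := by linarith
  have h2H : 0 < 2 * H := by linarith
  have hxr : (1:ℝ) ≤ |(x:ℝ)| := by
    have := Int.one_le_abs hx
    exact_mod_cast this
  have hxpos : (0:ℝ) < |(x:ℝ)| := by linarith
  -- `G = (2 H) ^ (κ / 2)`
  obtain ⟨G, hG⟩ : ∃ G : ℝ, G = (2 * H) ^ (κ / 2) := ⟨_, rfl⟩
  have hG1 : 1 ≤ G := by rw [hG]; exact Real.one_le_rpow (by linarith) (by linarith)
  have hG0 : 0 < G := by linarith
  have hG2 : G ^ 2 = (2 * H) ^ κ := by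
    rw [hG, ← Real.rpow_natCast, ← Real.rpow_mul h2H.le]
    congr 1
    push_cast
    ring
  have h2HG : 2 * H ≤ G ^ 2 := by
    rw [hG2]
    calc 2 * H = (2 * H) ^ (1:ℝ) := (Real.rpow_one _).symm
      _ ≤ (2 * H) ^ κ := Real.rpow_le_rpow_of_exponent_le (by linarith) hκ.le
  have hlow : |(A:ℝ) * x + B| ≤ 2 * H * |(x:ℝ)| := by
    calc |(A:ℝ) * x + B| ≤ |(A:ℝ) * x| + |(B:ℝ)| := abs_add_le _ _
      _ = |(A:ℝ)| * |(x:ℝ)| + |(B:ℝ)| := by rw [abs_mul]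
      _ ≤ H * |(x:ℝ)| + H * |(x:ℝ)| := by
          have h1 : |(A:ℝ)| * |(x:ℝ)| ≤ H * |(x:ℝ)| := by gcongr
          have h2 : |(B:ℝ)| ≤ H * |(x:ℝ)| := by nlinarith
          linarith
      _ = 2 * H * |(x:ℝ)| := by ring
  have hxB : |(x:ℝ)| ≤ B0 * G := by
    by_contra hcon
    rw [not_le] at hcon
    have hGx : G < |(x:ℝ)| := by
      refine lt_of_le_of_lt ?_ hcon
      nlinarith
    have hHx : 2 * H ≤ |(x:ℝ)| ^ (2 / κ) := by
      have h1 : (2 * H) ^ κ ≤ |(x:ℝ)| ^ (2:ℝ) := by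
        rw [← hG2, ← Real.rpow_natCast G 2]
        push_cast
        exact Real.rpow_le_rpow hG0.le hGx.le (by norm_num)
      have h2 := Real.rpow_le_rpow (Real.rpow_pos_of_pos h2H κ).le h1 hκ2.le
      rw [← Real.rpow_mul h2H.le, mul_one_div_cancel hκ0.ne', Real.rpow_one,
        ← Real.rpow_mul hxpos.le] at h2
      rwa [mul_one_div] at h2
    obtain ⟨W, hW⟩ : ∃ W : ℝ, W = max |((y ^ 2 : ℤ) : ℝ)| |((x ^ 3 : ℤ) : ℝ)| := ⟨_, rfl⟩
    have hWu : |((y ^ 2 : ℤ) : ℝ)| ≤ W := by rw [hW]; exact le_max_left _ _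
    have hWv : |((x ^ 3 : ℤ) : ℝ)| ≤ W := by rw [hW]; exact le_max_right _ _
    have hxW : |(x:ℝ)| ^ 3 ≤ W := by
      refine le_trans (le_of_eq ?_) hWv
      push_cast
      rw [abs_pow]
    have hdiff : ((y ^ 2 : ℤ) : ℝ) - ((x ^ 3 : ℤ) : ℝ) = (A:ℝ) * x + B := by
      rw [hxy]
      push_cast
      ring
    have hmain : |((y ^ 2 : ℤ) : ℝ) - ((x ^ 3 : ℤ) : ℝ)| ≤ W ^ (1 - δ) := by
      rw [hdiff]
      refine hlow.trans ?_
      calc 2 * H * |(x:ℝ)| ≤ |(x:ℝ)| ^ (2 / κ) * |(x:ℝ)| := by gcongr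
        _ = |(x:ℝ)| ^ (2 / κ + 1) := by rw [Real.rpow_add hxpos, Real.rpow_one]
        _ = (|(x:ℝ)| ^ 3) ^ (1 - δ) := by
            rw [← Real.rpow_natCast |(x:ℝ)| 3, ← Real.rpow_mul hxpos.le]
            congr 1
            rw [hδ]
            push_cast
            ring
        _ ≤ W ^ (1 - δ) := Real.rpow_le_rpow (by positivity) hxW (by linarith)
    have hfin := hN n hn (y ^ 2) (x ^ 3) (pow_ne_zero _ hy) (pow_ne_zero _ hx) (by
        intro h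
        apply hne
        rw [hxy] at h
        linarith) (by
        have e1 : (((y ^ 2 : ℤ) : ℚ) / ((x ^ 3 : ℤ) : ℚ)) = (y : ℚ) ^ 2 / (x : ℚ) ^ 3 := by
          push_cast
          rfl
        rw [e1]
        exact hAP) W hWu hWv (by
        rw [hW]
        rcases le_total |((y ^ 2 : ℤ) : ℝ)| |((x ^ 3 : ℤ) : ℝ)| with h | h
        · exact Or.inr (max_eq_right h).symm
        · exact Or.inl (max_eq_left h).symm) hmain
    have h1 : |(x:ℝ)| ≤ |(x:ℝ)| ^ 3 := by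
      calc |(x:ℝ)| = |(x:ℝ)| ^ 1 := (pow_one _).symm
        _ ≤ |(x:ℝ)| ^ 3 := pow_le_pow_right₀ hxr (by norm_num)
    have h2 : (B0:ℝ) ≤ B0 * G := by nlinarith
    linarith
  have hGle : G ≤ c * H ^ (κ / 2) := by
    rw [hG, Real.mul_rpow (by norm_num) hH0.le, hc]
    refine mul_le_mul_of_nonneg_right ?_ (by positivity)
    exact Real.rpow_le_rpow_of_exponent_le (by norm_num) (by linarith)
  have hHk : 0 < H ^ (κ / 2) := Real.rpow_pos_of_pos hH0 _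
  refine ⟨?_, ?_⟩
  · calc |(x:ℝ)| ≤ B0 * G := hxB
      _ ≤ B0 * (c * H ^ (κ / 2)) := by gcongr
      _ ≤ 2 * B0 ^ 3 * (c * H ^ (κ / 2)) := by
          have h1 : (B0:ℝ) ≤ 2 * B0 ^ 3 := by nlinarith [sq_nonneg ((B0:ℝ))]
          have h2 : 0 ≤ c * H ^ (κ / 2) := by positivity
          nlinarith
      _ = 2 * B0 ^ 3 * c * H ^ (κ / 2) := by ring
  · have hy2 : (y:ℝ) ^ 2 ≤ 2 * B0 ^ 3 * G ^ 3 := by
      have h1 : (y:ℝ) ^ 2 = (x:ℝ) ^ 3 + ((A:ℝ) * x + B) := by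
        have := congrArg (fun z : ℤ => (z : ℝ)) hxy
        push_cast at this
        linarith
      have h2 : (x:ℝ) ^ 3 ≤ |(x:ℝ)| ^ 3 := by rw [← abs_pow]; exact le_abs_self _
      have h3 : |(x:ℝ)| ^ 3 ≤ (B0 * G) ^ 3 := pow_le_pow_left₀ (abs_nonneg _) hxB 3
      have h4 : (A:ℝ) * x + B ≤ G ^ 2 * (B0 * G) := by
        refine (le_abs_self _).trans (hlow.trans ?_)
        gcongr
      have h5 : (B0:ℝ) * G ^ 3 ≤ B0 ^ 3 * G ^ 3 := by
        have : (B0:ℝ) ≤ B0 ^ 3 := by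
          calc (B0:ℝ) = B0 ^ 1 := (pow_one _).symm
            _ ≤ B0 ^ 3 := pow_le_pow_right₀ hBr (by norm_num)
        gcongr
      rw [h1]
      nlinarith
    have hG32 : (2 * H) ^ (3 * κ / 4) ≤ c * H ^ (3 * κ / 4) := by
      rw [Real.mul_rpow (by norm_num) hH0.le, hc]
      refine mul_le_mul_of_nonneg_right ?_ (by positivity)
      exact Real.rpow_le_rpow_of_exponent_le (by norm_num) (by linarith)
    have hsq : ((2 * H) ^ (3 * κ / 4)) ^ 2 = G ^ 3 := by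
      rw [hG, ← Real.rpow_natCast, ← Real.rpow_mul h2H.le, ← Real.rpow_natCast,
        ← Real.rpow_mul h2H.le]
      congr 1
      push_cast
      ring
    have hpos1 : 0 < (2 * H) ^ (3 * κ / 4) := Real.rpow_pos_of_pos h2H _
    have hy3 : |(y:ℝ)| ≤ 2 * B0 ^ 3 * (2 * H) ^ (3 * κ / 4) := by
      apply abs_le_of_sq_le_sq _ (by positivity)
      rw [mul_pow, hsq]
      refine hy2.trans ?_
      have h1 : (1:ℝ) ≤ 2 * B0 ^ 3 := by linarith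
      have h2 : 0 ≤ G ^ 3 := by positivity
      have h3 : 2 * (B0:ℝ) ^ 3 ≤ (2 * B0 ^ 3) ^ 2 := by nlinarith
      gcongr
    calc |(y:ℝ)| ≤ 2 * B0 ^ 3 * (2 * H) ^ (3 * κ / 4) := hy3
      _ ≤ 2 * B0 ^ 3 * (c * H ^ (3 * κ / 4)) := by gcongr
      _ = 2 * B0 ^ 3 * c * H ^ (3 * κ / 4) := by ring

/-- the points with `A x + B = 0` -/
lemma degenerate {A B x y : ℤ} (hAB : 4 * A ^ 3 + 27 * B ^ 2 ≠ 0) (hxy : y ^ 2 = x ^ 3 + A * x + B)
    (h0 : A * x + B = 0) : |(x : ℝ)| ≤ size A B ∧ |(y : ℝ)| ≤ size A B ^ ((3 : ℝ) / 2) := by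
  have hA : A ≠ 0 := by
    rintro rfl
    have hB : B = 0 := by linarith
    exact hAB (by rw [hB]; norm_num)
  have hH1 := size_ge hAB
  have hx : |(x:ℝ)| ≤ size A B := by
    have h1 : (A:ℝ) * x = -B := by
      have : A * x = -B := by linarith
      exact_mod_cast this
    have h2 : (1:ℝ) ≤ |(A:ℝ)| := by
      have := Int.one_le_abs hA
      exact_mod_cast this
    calc |(x:ℝ)| ≤ |(A:ℝ)| * |(x:ℝ)| := by nlinarith [abs_nonneg (x:ℝ)]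
      _ = |(B:ℝ)| := by rw [← abs_mul, h1, abs_neg]
      _ ≤ size A B := (le_size A B).2
  refine ⟨hx, ?_⟩
  have hy : (y:ℝ) ^ 2 = (x:ℝ) ^ 3 := by
    have h1 : y ^ 2 = x ^ 3 := by rw [hxy]; linarith
    exact_mod_cast h1
  have hH0 : 0 < size A B := by linarith
  apply abs_le_of_sq_le_sq _ (by positivity)
  rw [hy, ← Real.rpow_natCast (size A B ^ ((3:ℝ) / 2)) 2, ← Real.rpow_mul hH0.le]
  norm_num
  calc (x:ℝ) ^ 3 ≤ |(x:ℝ)| ^ 3 := by rw [← abs_pow]; exact le_abs_self _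
    _ ≤ size A B ^ 3 := pow_le_pow_left₀ (abs_nonneg _) hx 3

/-- the Hall–Lang bound for all these points -/
lemma all (S : Finset ℕ) : ∃ (N : ℕ) (K : ℝ), 1 ≤ K ∧
    ∀ A B : ℤ, 4 * A ^ 3 + 27 * B ^ 2 ≠ 0 → ∀ x y : ℤ, y ^ 2 = x ^ 3 + A * x + B →
      x ≠ 0 → y ≠ 0 → ∀ n : ℕ, N ≤ n → IsAlmostPower S n ((y : ℚ) ^ 2 / (x : ℚ) ^ 3) →
        |(x : ℝ)| ≤ K * size A B ∧ |(y : ℝ)| ≤ K * size A B ^ ((3 : ℝ) / 2) := by
  obtain ⟨N, K, hK, h⟩ := main S 2 (by norm_num)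
  refine ⟨N, K, hK, ?_⟩
  intro A B hAB x y hxy hx hy n hn hAP
  have hH1 := size_ge hAB
  have hH0 : 0 < size A B := by linarith
  by_cases h0 : A * x + B = 0
  · obtain ⟨h1, h2⟩ := degenerate hAB hxy h0
    have h3 : 0 < size A B ^ ((3 : ℝ) / 2) := Real.rpow_pos_of_pos hH0 _
    exact ⟨by nlinarith, by nlinarith⟩
  · obtain ⟨h1, h2⟩ := h A B hAB x y hxy hx hy n hn hAP h0
    refine ⟨?_, ?_⟩
    · rwa [div_self (by norm_num : (2:ℝ) ≠ 0), Real.rpow_one] at h1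
    · have e : (3 * 2 / 4 : ℝ) = 3 / 2 := by norm_num
      rwa [e] at h2

/-- a product of powers of an `S`-integer and of `n`-th powers -/
lemma almost {S : Finset ℕ} {n : ℕ} {s t X Y : ℤ} (hs : IsSInteger S s)
    (ht : IsSInteger S t) (hX : X ≠ 0) (hY : Y ≠ 0) :
    IsAlmostPower S n (((t * Y ^ n : ℤ) : ℚ) ^ 2 / ((s * X ^ n : ℤ) : ℚ) ^ 3) := by
  intro q hq hqS
  have : Fact q.Prime := ⟨hq⟩
  have hval : ∀ z : ℤ, IsSInteger S z → padicValRat q (z : ℚ) = 0 := by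
    intro z hz
    rw [padicValRat.of_int, padicValInt.eq_zero_of_not_dvd]
    · rfl
    · exact fun hc => hqS (hz.2 q hq hc)
  have hsq : (s : ℚ) ≠ 0 := by exact_mod_cast hs.1
  have htq : (t : ℚ) ≠ 0 := by exact_mod_cast ht.1
  have hXq : (X : ℚ) ≠ 0 := by exact_mod_cast hX
  have hYq : (Y : ℚ) ≠ 0 := by exact_mod_cast hY
  have hYn : (Y : ℚ) ^ n ≠ 0 := pow_ne_zero _ hYq
  have hXn : (X : ℚ) ^ n ≠ 0 := pow_ne_zero _ hXq
  have htY : (t : ℚ) * (Y : ℚ) ^ n ≠ 0 := mul_ne_zero htq hYn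
  have hsX : (s : ℚ) * (X : ℚ) ^ n ≠ 0 := mul_ne_zero hsq hXn
  have e1 : padicValRat q (((t : ℚ) * (Y : ℚ) ^ n) ^ 2) = 2 * (n * padicValRat q (Y : ℚ)) := by
    rw [padicValRat.pow, padicValRat.mul htq hYn, padicValRat.pow, hval t ht, zero_add]
    norm_num
  have e2 : padicValRat q (((s : ℚ) * (X : ℚ) ^ n) ^ 3) = 3 * (n * padicValRat q (X : ℚ)) := by
    rw [padicValRat.pow, padicValRat.mul hsq hXn, padicValRat.pow, hval s hs, zero_add]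
    norm_num
  have e3 : (((t * Y ^ n : ℤ) : ℚ) ^ 2 / ((s * X ^ n : ℤ) : ℚ) ^ 3) =
      ((t : ℚ) * (Y : ℚ) ^ n) ^ 2 / ((s : ℚ) * (X : ℚ) ^ n) ^ 3 := by
    push_cast
    rfl
  rw [e3, padicValRat.div (pow_ne_zero _ htY) (pow_ne_zero _ hsX), e1, e2]
  exact ⟨2 * padicValRat q (Y : ℚ) - 3 * padicValRat q (X : ℚ), by ring⟩

theorem result (S : Finset ℕ) :
    (∀ κ : ℝ, 1 < κ → ∃ (N : ℕ) (K : ℝ), ∀ A B : ℤ, 4 * A ^ 3 + 27 * B ^ 2 ≠ 0 →
      ∀ x y : ℤ, y ^ 2 = x ^ 3 + A * x + B → x ≠ 0 → y ≠ 0 → ∀ n : ℕ, N ≤ n →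
      IsAlmostPower S n ((y : ℚ) ^ 2 / (x : ℚ) ^ 3) → A * x + B ≠ 0 →
        |(x : ℝ)| ≤ K * size A B ^ (κ / 2) ∧ |(y : ℝ)| ≤ K * size A B ^ (3 * κ / 4)) ∧
    (∃ (N : ℕ) (K : ℝ), ∀ A B : ℤ, 4 * A ^ 3 + 27 * B ^ 2 ≠ 0 →
      ∀ x y : ℤ, y ^ 2 = x ^ 3 + A * x + B → x ≠ 0 → y ≠ 0 → ∀ n : ℕ, N ≤ n →
      IsAlmostPower S n ((y : ℚ) ^ 2 / (x : ℚ) ^ 3) →
        |(x : ℝ)| ≤ K * size A B ∧ |(y : ℝ)| ≤ K * size A B ^ ((3 : ℝ) / 2)) ∧
    ∃ N : ℕ, ∀ A B : ℤ, 4 * A ^ 3 + 27 * B ^ 2 ≠ 0 → ∀ s t : ℤ, IsSInteger S s →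
      IsSInteger S t → ∀ n : ℕ, N * (1 + Real.log (size A B)) ≤ n → ∀ X Y : ℤ,
      (t * Y ^ n) ^ 2 = (s * X ^ n) ^ 3 + A * (s * X ^ n) + B → Y ≠ 0 → |X| ≤ 1 := by
  refine ⟨fun κ hκ => ?_, ?_, ?_⟩
  · obtain ⟨N, K, -, h⟩ := main S κ hκ
    exact ⟨N, K, h⟩
  · obtain ⟨N, K, -, h⟩ := all S
    exact ⟨N, K, h⟩
  · obtain ⟨N, K, hK, h⟩ := all S
    obtain ⟨N1, hN1⟩ : ∃ N1 : ℕ, 2 * (1 + Real.log K) + 1 ≤ (N1 : ℝ) := exists_nat_ge _
    have hlK : 0 ≤ Real.log K := Real.log_nonneg hK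
    refine ⟨N + N1, ?_⟩
    intro A B hAB s t hs ht n hn X Y hXY hY
    by_contra hcon
    rw [not_le] at hcon
    have hX2 : 2 ≤ |X| := by omega
    have hX0 : X ≠ 0 := by
      rintro rfl
      simp at hX2
    have hH1 := size_ge hAB
    obtain ⟨l, hl⟩ : ∃ l : ℝ, l = Real.log (size A B) := ⟨_, rfl⟩
    rw [← hl] at hn
    have hl0 : 0 ≤ l := by rw [hl]; exact Real.log_nonneg hH1
    have hN0 : (0:ℝ) ≤ N := Nat.cast_nonneg _
    have hN10 : (0:ℝ) ≤ N1 := Nat.cast_nonneg _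
    have hNn : N ≤ n := by
      have h1 : (N : ℝ) ≤ n := by
        refine le_trans ?_ hn
        push_cast
        nlinarith
      exact_mod_cast h1
    have hx0 : s * X ^ n ≠ 0 := mul_ne_zero hs.1 (pow_ne_zero _ hX0)
    have hy0 : t * Y ^ n ≠ 0 := mul_ne_zero ht.1 (pow_ne_zero _ hY)
    have h1 := (h A B hAB (s * X ^ n) (t * Y ^ n) hXY hx0 hy0 n hNn
      (almost hs ht hX0 hY)).1
    have hs1 : (1:ℝ) ≤ |(s:ℝ)| := by
      have := Int.one_le_abs hs.1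
      exact_mod_cast this
    have hXr : (2:ℝ) ≤ |(X:ℝ)| := by exact_mod_cast hX2
    have h2 : (2:ℝ) ^ n ≤ |((s * X ^ n : ℤ) : ℝ)| := by
      push_cast
      rw [abs_mul, abs_pow]
      have h3 : (2:ℝ) ^ n ≤ |(X:ℝ)| ^ n := pow_le_pow_left₀ (by norm_num) hXr n
      have h4 : (0:ℝ) ≤ |(X:ℝ)| ^ n := by positivity
      nlinarith
    have h3 : (n:ℝ) * Real.log 2 ≤ Real.log K + l := by
      rw [← Real.log_pow, hl, ← Real.log_mul (by linarith) (by linarith)]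
      exact Real.log_le_log (by positivity) (h2.trans h1)
    have h4 := Pool.Agent.U964.ML.log_two_gt
    have h5 : (n:ℝ) * (1 / 2) ≤ Real.log K + l := by
      refine le_trans ?_ h3
      have : (0:ℝ) ≤ n := Nat.cast_nonneg _
      nlinarith
    have h6 : (2 * (1 + Real.log K) + 1) * (1 + l) ≤ n := by
      refine le_trans ?_ hn
      push_cast
      nlinarith
    nlinarith

end Pool.Agent.Results.MP_a1107e_nt.AlmostPowers
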