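import Mathlib
import Pool.Agent.U214.IP.Two
import Pool.Agent.U214.UN.BoxT

/-!
# The exceptions to the Hall-Lang bound on the curves with full 2-torsion of a family, on average

Let `A, B, D` be binary forms with integer coefficients, given by polynomials in one variable
(`hom f m n = n ^ deg f * f (m / n)`), `A`, `B` and `A - B` of the same degree, `D` of any degree,
`A B (A - B)` squarefree and each of its irreducible factors dividing `D` to an even power. We consider the
curves `y² = x (x - a) (x - b)`, `a = A(m,n) D(m,n)`, `b = B(m,n) D(m,n)`, `m` and `n` coprime. Put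
`h = max (|a|, |b|)` and let `N` be the number of ALL integers `x ≥ 3 ^ 12 h ^ (6 + δ)` for which
`x (x - a) (x - b)` is a square, `0 < δ ≤ 1`. For every `r` and `K` the `r`-th moment of `N` over the pairs
`(m, n)` of a box `(u, u + X] × (v, v + Y]` is at most
`C (1 + log (1 / δ)) ^ r (1 + log X) ^ kap`, with a constant `C` that does not depend on `δ` and the
box, if `|u| ≤ X ^ K` and `v + Y ≤ min(X, Y) ^ K`. The exponent `kap = kap r A B` is `0` for all `r`
if `A` and `B` are constant (quadratic twists), and for `r = 1` if `A`, `B` and `A - B` have equally many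
irreducible factors, for instance for the family of all curves with full 2-torsion,
`A = m`, `B = - m - n`.

The Hall-Lang conjecture says that there is a constant `c` such that all integral points of all these
curves satisfy `x ≤ c h ^ c`. By the theorem the number of the exceptions to the bound
`x < 3 ^ 12 h ^ (6 + δ)` is bounded on average.

Proof. The integral points in one coset of `2 E(ℚ)` repel each other: there are at most `4 k` of them between
`|Δ| ^ (1 + δ)` and `|Δ| ^ (δ 3 ^ k)` (helper133, `CosetRepulsion`) and at most `16` of them beyond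
`h ^ M`, with a constant `M` (helper133, `MP_d88658_nt.FewExceptions`). The number of the cosets is at most
`4 * 2 ^ rank`, and the moments of `2 ^ rank` are those of `MP_788af2_nt.FamiliesInBoxes`.
-/

set_option autoImplicit false

namespace Pool.Agent.Results.MP_a1107e_nt.ExceptionsInFamilies

open Finset Polynomial

/-- the size of the curve `y² = x (x - a) (x - b)` -/
def size (a b : ℤ) : ℝ := max |(a : ℝ)| |(b : ℝ)|

/-- all the integers `x ≥ 3 ^ 12 h ^ (6 + δ)`, `h = size a b`, for which there is an integer `y` with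
`y² = x (x - a) (x - b)` -/
def Large (a b : ℤ) (δ : ℝ) : Set ℤ :=
  {x : ℤ | 3 ^ 12 * size a b ^ (6 + δ) ≤ (x : ℝ) ∧ ∃ y : ℤ, y ^ 2 = x * (x - a) * (x - b)}

/-- the value at `(m, n)` of the binary form of degree `deg f` with `f (t) = hom f t 1` -/
def hom (f : ℤ[X]) (m n : ℤ) : ℤ :=
  ∑ i ∈ range (f.natDegree + 1), f.coeff i * m ^ i * n ^ (f.natDegree - i)

/-- `f` as a polynomial over `ℚ` -/
noncomputable def q (f : ℤ[X]) : ℚ[X] := f.map (Int.castRingHom ℚ)

/-- the number of the irreducible factors of `f` over `ℚ` -/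
noncomputable def n (f : ℤ[X]) : ℕ := (UniqueFactorizationMonoid.normalizedFactors (q f)).card

/-- the exponent: the largest of `0` and the three numbers
`(2 ^ r - 1) * (n F - (n G + n H) / 2 ^ r)`, `{F, G, H} = {A, B, A - B}` -/
noncomputable def kap (r : ℕ) (A B : ℤ[X]) : ℝ :=
  max 0 (max (((2 : ℝ) ^ r - 1) * (n A - ((n B : ℝ) + n (A - B)) / 2 ^ r))
    (max (((2 : ℝ) ^ r - 1) * (n B - ((n A : ℝ) + n (A - B)) / 2 ^ r))
      (((2 : ℝ) ^ r - 1) * (n (A - B) - ((n A : ℝ) + n B) / 2 ^ r))))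

/-- the coprime pairs `(m, n)` with `u < m ≤ u + X`, `v < n ≤ v + Y` and a nonsingular curve -/
noncomputable def Box (A B D : ℤ[X]) (u : ℤ) (v X Y : ℕ) : Finset (ℤ × ℕ) :=
  ((Ioc u (u + X)) ×ˢ (Ioc v (v + Y))).filter (fun w : ℤ × ℕ =>
    IsCoprime w.1 (w.2 : ℤ) ∧ hom A w.1 w.2 * hom B w.1 w.2 * (hom A w.1 w.2 - hom B w.1 w.2) *
      hom D w.1 w.2 ≠ 0)

/-- the bound for one curve -/
lemma large_le : ∃ C : ℝ, 0 ≤ C ∧ ∀ a b : ℤ, a ≠ 0 → b ≠ 0 → a ≠ b → ∀ δ : ℝ, 0 < δ → δ ≤ 1 →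
    (Large a b δ).Finite ∧
    ((Large a b δ).ncard : ℝ) ≤ C * (1 + Real.log (1 / δ)) * Pool.Agent.U214.PT.tr a b := by
  obtain ⟨C, hC0, hC⟩ := Pool.Agent.U214.IP.three
  refine ⟨C, hC0, fun a b ha hb hab δ hδ hδ1 => ?_⟩
  have h1 : 1 ≤ size a b := by
    unfold size
    refine le_max_of_le_left ?_
    have : (1 : ℤ) ≤ |a| := Int.one_le_abs ha
    exact_mod_cast this
  exact hC a b ha hb hab (size a b) δ h1 (le_max_left _ _) (le_max_right _ _) hδ hδ1

/-- **All the moments of the number of the large integral points over the boxes.** -/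
theorem result (A B D : ℤ[X]) (hB : B.natDegree = A.natDegree)
    (hAB : (A - B).natDegree = A.natDegree) (hD : D ≠ 0) (hS : Squarefree (q (A * B * (A - B))))
    (hev : ∀ P : ℚ[X], Irreducible P → P ∣ q (A * B * (A - B)) → Even (multiplicity P (q D)))
    (r K : ℕ) : ∃ C : ℝ, ∀ δ : ℝ, 0 < δ → δ ≤ 1 → ∀ X Y : ℕ, 1 ≤ X → 1 ≤ Y →
      ∀ v : ℕ, v + Y ≤ min X Y ^ K → ∀ u : ℤ, |u| ≤ (X : ℤ) ^ K →
      (∀ w ∈ Box A B D u v X Y,
        (Large (hom A w.1 w.2 * hom D w.1 w.2) (hom B w.1 w.2 * hom D w.1 w.2) δ).Finite) ∧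
      ∑ w ∈ Box A B D u v X Y, ((Large (hom A w.1 w.2 * hom D w.1 w.2)
        (hom B w.1 w.2 * hom D w.1 w.2) δ).ncard : ℝ) ^ r ≤
        C * (1 + Real.log (1 / δ)) ^ r * (X * Y * (1 + Real.log X) ^ kap r A B) := by
  classical
  obtain ⟨C, hC⟩ := Pool.Agent.U214.UN.famBox Pool.Agent.U214.GT.tr_QL hB hAB hD hS hev (r := r)
    (e := kap r A B) (le_max_left _ _)
    ((le_max_left _ _).trans (le_max_right _ _))
    ((le_max_left _ _).trans ((le_max_right _ _).trans (le_max_right _ _)))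
    ((le_max_right _ _).trans ((le_max_right _ _).trans (le_max_right _ _))) K
  obtain ⟨C1, hC10, hC1⟩ := large_le
  refine ⟨C1 ^ r * C, fun δ hδ hδ1 X Y hX hY v hv u hu => ?_⟩
  have hδ' : 1 ≤ 1 / δ := by
    rw [le_div_iff₀ hδ]
    linarith
  have hlog : 0 ≤ Real.log (1 / δ) := Real.log_nonneg hδ'
  have hne : ∀ w ∈ Box A B D u v X Y, hom A w.1 w.2 * hom D w.1 w.2 ≠ 0 ∧
      hom B w.1 w.2 * hom D w.1 w.2 ≠ 0 ∧
      hom A w.1 w.2 * hom D w.1 w.2 ≠ hom B w.1 w.2 * hom D w.1 w.2 := by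
    intro w hw
    have h2 := (mem_filter.1 hw).2.2
    have hD0 : hom D w.1 w.2 ≠ 0 := right_ne_zero_of_mul h2
    have h3 := left_ne_zero_of_mul h2
    have h4 := right_ne_zero_of_mul h3
    have h5 := left_ne_zero_of_mul h3
    refine ⟨mul_ne_zero (left_ne_zero_of_mul h5) hD0, mul_ne_zero (right_ne_zero_of_mul h5) hD0,
      fun h6 => h4 ?_⟩
    have h7 := mul_right_cancel₀ hD0 h6
    rw [h7, sub_self]
  refine ⟨fun w hw => ?_, ?_⟩
  · obtain ⟨h2, h3, h4⟩ := hne w hw
    exact (hC1 _ _ h2 h3 h4 δ hδ hδ1).1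
  have h1 := hC X Y v u hX hY
      (hv.trans (Nat.pow_le_pow_left (min_le_left X Y) K))
      (hv.trans (Nat.pow_le_pow_left (min_le_right X Y) K)) (by zify; exact hu)
  have h1' : ∑ w ∈ Box A B D u v X Y, Pool.Agent.U214.PT.tr (hom A w.1 w.2 * hom D w.1 w.2)
      (hom B w.1 w.2 * hom D w.1 w.2) ^ r ≤ C * (X * Y * (1 + Real.log X) ^ kap r A B) := h1
  have hp : 0 ≤ (C1 * (1 + Real.log (1 / δ))) ^ r := pow_nonneg (by positivity) _
  calc ∑ w ∈ Box A B D u v X Y, ((Large (hom A w.1 w.2 * hom D w.1 w.2)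
        (hom B w.1 w.2 * hom D w.1 w.2) δ).ncard : ℝ) ^ r
      ≤ ∑ w ∈ Box A B D u v X Y, (C1 * (1 + Real.log (1 / δ))) ^ r *
          Pool.Agent.U214.PT.tr (hom A w.1 w.2 * hom D w.1 w.2)
            (hom B w.1 w.2 * hom D w.1 w.2) ^ r := by
        refine sum_le_sum fun w hw => ?_
        obtain ⟨h2, h3, h4⟩ := hne w hw
        rw [← mul_pow]
        exact pow_le_pow_left₀ (Nat.cast_nonneg _) (hC1 _ _ h2 h3 h4 δ hδ hδ1).2 r
    _ = (C1 * (1 + Real.log (1 / δ))) ^ r * ∑ w ∈ Box A B D u v X Y,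
          Pool.Agent.U214.PT.tr (hom A w.1 w.2 * hom D w.1 w.2)
            (hom B w.1 w.2 * hom D w.1 w.2) ^ r := by rw [mul_sum]
    _ ≤ (C1 * (1 + Real.log (1 / δ))) ^ r * (C * (X * Y * (1 + Real.log X) ^ kap r A B)) :=
        mul_le_mul_of_nonneg_left h1' hp
    _ = _ := by
        rw [mul_pow]
        ring

end Pool.Agent.Results.MP_a1107e_nt.ExceptionsInFamilies
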