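import Pool.Agent.U405.HL.C

/-!
# Integral points with generated coordinates on individual Weierstrass curves

The Hall-Lang conjecture bounds `max |x| |y|` by a fixed power of `max |A| |B|` for the integral
points of all elliptic curves `y ^ 2 = x ^ 3 + A * x + B`.  We consider a single curve with
coefficients as large as `exp (X ^ δ)`, and its integral points of size at most `exp (X ^ δ)` both
of whose coordinates are, up to factors of size at most `X ^ E`, products of powers of the same `N`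
(unspecified) integers of size at most `X`.  All but `2 X ^ ε` of them satisfy
`max |x| |y| ≤ (X * max |A| |B|) ^ K`; in particular `max |x| |y| ≤ max |A| |B| ^ (2 K)` if
`X ≤ max |A| |B|`.

More generally, for fixed integers `α`, `β` of size at most `exp (X ^ δ)` all the curves
`y ^ 2 = x ^ 3 + α * a * x + β * b` with `|a|, |b| ≤ X ^ E` are treated simultaneously: up to
isomorphism over `ℚ` of the pairs (curve, point), at most `X ^ ε` points have
`(X * max |α| |β|) ^ K < max |x| |y| ≤ exp (X ^ δ)`.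

Method: the theorem `Pool.Agent.Y902.GN.gq` of the starting library on vanishing sums of products of
powers of few integers with fixed large coefficients, applied to `y ^ 2`, `x ^ 3`, `a * x`, `b`, and
an elimination which shows that two large points whose coordinates have nearly the same ratios are
isomorphic.
-/

set_option autoImplicit false

namespace Pool.Agent.Results.MP_a1107e_nt.LargeCoefficients

open Pool.Agent.U405.HL

/-- `x` and `y` are products of powers of the same `N` integers between `1` and `X`, up to integral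
factors of absolute value at most `X ^ E`. -/
def Generated (N E X : ℕ) (x y : ℤ) : Prop :=
  ∃ (s t : ℤ) (g : Fin N → ℕ) (e f : Fin N → ℕ), |s| ≤ (X : ℤ) ^ E ∧ |t| ≤ (X : ℤ) ^ E ∧
    (∀ j, 1 ≤ g j ∧ g j ≤ X) ∧ x = s * ∏ j, (g j : ℤ) ^ e j ∧ y = t * ∏ j, (g j : ℤ) ^ f j

/-- `(x, y)` is an integral point with generated coordinates on the elliptic curve
`y ^ 2 = x ^ 3 + A * x + B`, where `A = α * a`, `B = β * b` with `|a|, |b| ≤ X ^ E`, such that
`(X * max |α| |β|) ^ K < max |x| |y| ≤ exp (X ^ δ)`. -/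
structure LargePoint (N E K : ℕ) (δ : ℝ) (X : ℕ) (α β A B x y : ℤ) : Prop where
  coeffs : ∃ a b : ℤ, |a| ≤ (X : ℤ) ^ E ∧ |b| ≤ (X : ℤ) ^ E ∧ A = α * a ∧ B = β * b
  disc : 4 * A ^ 3 + 27 * B ^ 2 ≠ 0
  eqn : y ^ 2 = x ^ 3 + A * x + B
  gen : Generated N E X x y
  large : ((X : ℤ) * max |α| |β|) ^ K < max |x| |y|
  bound : ((max |x| |y| : ℤ) : ℝ) ≤ Real.exp ((X : ℝ) ^ δ)

/-- The isomorphism with parameter `r` maps the second curve and point to the first ones. -/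
def Scales (r : ℚ) (A B x y A' B' x' y' : ℤ) : Prop :=
  (A : ℚ) = r ^ 4 * A' ∧ (B : ℚ) = r ^ 6 * B' ∧ (x : ℚ) = r ^ 2 * x' ∧ (y : ℚ) = r ^ 3 * y'

theorem ne_of_disc {A B : ℤ} (h : 4 * A ^ 3 + 27 * B ^ 2 ≠ 0) : A ≠ 0 ∨ B ≠ 0 := by
  by_contra hcon
  push Not at hcon
  apply h
  rw [hcon.1, hcon.2]
  norm_num

/-- separated finite sets of large points -/
theorem sep {N E K X : ℕ} {δ ε : ℝ} {α β : ℤ}
    (H : ∀ (P : Type) (T : Finset P) (a b x y : P → ℤ),
      (∀ s ∈ T, LP N E K δ X α β (a s) (b s) (x s) (y s)) →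
      (∀ s ∈ T, ∀ s' ∈ T, s ≠ s' → ¬ Iso α β (a s) (b s) (x s) (y s) (a s') (b s') (x s') (y s')) →
      (T.card : ℝ) ≤ (X : ℝ) ^ ε) (T : Finset (ℤ × ℤ × ℤ × ℤ))
    (h1 : ∀ s ∈ T, LargePoint N E K δ X α β s.1 s.2.1 s.2.2.1 s.2.2.2)
    (h2 : ∀ s ∈ T, ∀ t ∈ T, s ≠ t →
      ¬ ∃ r : ℚ, r ≠ 0 ∧ Scales r s.1 s.2.1 s.2.2.1 s.2.2.2 t.1 t.2.1 t.2.2.1 t.2.2.2) :
    (T.card : ℝ) ≤ (X : ℝ) ^ ε := by
  choose! a b c1 c2 c3 c4 using fun s hs => (h1 s hs).coeffs
  refine H _ T a b (fun s => s.2.2.1) (fun s => s.2.2.2) (fun s hs => ?_) ?_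
  · have h := h1 s hs
    refine ⟨c1 s hs, c2 s hs, ?_, ?_, h.gen, h.large, h.bound⟩
    · have := ne_of_disc h.disc
      rw [c3 s hs, c4 s hs] at this
      exact this
    · rw [← c3 s hs, ← c4 s hs]
      exact h.eqn
  · intro s hs s' hs' hne ⟨r, r0, r1, r2, r3, r4⟩
    refine h2 s hs s' hs' hne ⟨r, r0, ?_, ?_, r3, r4⟩
    · rw [c3 s hs, c3 s' hs']
      exact r1
    · rw [c4 s hs, c4 s' hs']
      exact r2

theorem one_or_neg_one {r : ℚ} (h : r ^ 4 = 1 ∨ r ^ 6 = 1) : r = 1 ∨ r = -1 := by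
  have h2 : r ^ 2 = 1 := by
    have h0 : 0 ≤ r ^ 2 := sq_nonneg r
    rcases h with h | h
    · have h1 : (r ^ 2) ^ 2 = 1 := by rw [← pow_mul]; exact h
      exact (pow_eq_one_iff_of_nonneg h0 (by norm_num)).1 h1
    · have h1 : (r ^ 2) ^ 3 = 1 := by rw [← pow_mul]; exact h
      exact (pow_eq_one_iff_of_nonneg h0 (by norm_num)).1 h1
  have h3 : (r - 1) * (r + 1) = 0 := by linear_combination h2
  rcases mul_eq_zero.1 h3 with h4 | h4
  · exact Or.inl (by linear_combination h4)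
  · exact Or.inr (by linear_combination h4)

/-- two isomorphic points on the same curve agree up to the sign of `y` -/
theorem same_curve {r : ℚ} {A B x y x' y' : ℤ} (hAB : A ≠ 0 ∨ B ≠ 0) (h : Scales r A B x y A B x' y') :
    x = x' ∧ (y = y' ∨ y = -y') := by
  obtain ⟨h1, h2, h3, h4⟩ := h
  have hr : r = 1 ∨ r = -1 := by
    apply one_or_neg_one
    rcases hAB with h | h
    · have hA : (A : ℚ) ≠ 0 := by exact_mod_cast h
      left
      refine mul_right_cancel₀ hA ?_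
      linear_combination -h1
    · have hB : (B : ℚ) ≠ 0 := by exact_mod_cast h
      right
      refine mul_right_cancel₀ hB ?_
      linear_combination -h2
  rcases hr with rfl | rfl
  · exact ⟨by exact_mod_cast (by linear_combination h3 : (x : ℚ) = x'),
      Or.inl (by exact_mod_cast (by linear_combination h4 : (y : ℚ) = y'))⟩
  · exact ⟨by exact_mod_cast (by linear_combination h3 : (x : ℚ) = x'),
      Or.inr (by exact_mod_cast (by push_cast; linear_combination h4 : (y : ℚ) = ((-y' : ℤ) : ℚ)))⟩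

/-- The integral points `(x, y)` of the curve `y ^ 2 = x ^ 3 + A * x + B` with generated coordinates
such that `W < max |x| |y| ≤ exp (X ^ δ)`. -/
def LargePoints (N E X : ℕ) (δ : ℝ) (A B W : ℤ) : Set (ℤ × ℤ) :=
  {P | P.2 ^ 2 = P.1 ^ 3 + A * P.1 + B ∧ Generated N E X P.1 P.2 ∧ W < max |P.1| |P.2| ∧
    ((max |P.1| |P.2| : ℤ) : ℝ) ≤ Real.exp ((X : ℝ) ^ δ)}

theorem finite_pts (N E X : ℕ) (δ : ℝ) (A B W : ℤ) : (LargePoints N E X δ A B W).Finite := by
  obtain ⟨m, hm⟩ : ∃ m : ℤ, m = ⌈Real.exp ((X : ℝ) ^ δ)⌉ := ⟨_, rfl⟩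
  refine ((Set.finite_Icc (-m) m).prod (Set.finite_Icc (-m) m)).subset ?_
  rintro ⟨x, y⟩ ⟨-, -, -, h⟩
  have h1 : max |x| |y| ≤ m := by
    have h2 : ((max |x| |y| : ℤ) : ℝ) ≤ (m : ℝ) := h.trans (by rw [hm]; exact Int.le_ceil _)
    exact_mod_cast h2
  have h3 := abs_le.1 ((le_max_left |x| |y|).trans h1)
  have h4 := abs_le.1 ((le_max_right |x| |y|).trans h1)
  exact ⟨⟨h3.1, h3.2⟩, ⟨h4.1, h4.2⟩⟩

/-- **Large integral points with generated coordinates on individual curves with large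
coefficients.** -/
theorem result : ∀ (N E : ℕ) (ε : ℝ), 0 < ε → ∃ (K : ℕ) (δ : ℝ), 0 < δ ∧ ∀ X : ℕ, 2 ≤ X →
    -- simultaneously for all curves with coefficients `α * a`, `β * b`, up to isomorphism
    (∀ α β : ℤ, ((|α| : ℤ) : ℝ) ≤ Real.exp ((X : ℝ) ^ δ) → ((|β| : ℤ) : ℝ) ≤ Real.exp ((X : ℝ) ^ δ) →
      ∃ S : Finset (ℤ × ℤ × ℤ × ℤ), (S.card : ℝ) ≤ (X : ℝ) ^ ε ∧
        (∀ s ∈ S, LargePoint N E K δ X α β s.1 s.2.1 s.2.2.1 s.2.2.2) ∧
        ∀ A B x y : ℤ, LargePoint N E K δ X α β A B x y →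
          ∃ s ∈ S, ∃ r : ℚ, r ≠ 0 ∧ Scales r A B x y s.1 s.2.1 s.2.2.1 s.2.2.2) ∧
    -- every single curve
    (∀ A B : ℤ, 4 * A ^ 3 + 27 * B ^ 2 ≠ 0 → ((max |A| |B| : ℤ) : ℝ) ≤ Real.exp ((X : ℝ) ^ δ) →
      (LargePoints N E X δ A B (((X : ℤ) * max |A| |B|) ^ K)).Finite ∧
      ((LargePoints N E X δ A B (((X : ℤ) * max |A| |B|) ^ K)).ncard : ℝ) ≤ 2 * (X : ℝ) ^ ε) ∧
    -- the bound of Hall and Lang for the curves with `X ≤ max |A| |B| ≤ exp (X ^ δ)`
    (∀ A B : ℤ, 4 * A ^ 3 + 27 * B ^ 2 ≠ 0 → (X : ℤ) ≤ max |A| |B| →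
      ((max |A| |B| : ℤ) : ℝ) ≤ Real.exp ((X : ℝ) ^ δ) →
      (LargePoints N E X δ A B (max |A| |B| ^ (2 * K))).Finite ∧
      ((LargePoints N E X δ A B (max |A| |B| ^ (2 * K))).ncard : ℝ) ≤ 2 * (X : ℝ) ^ ε) := by
  classical
  intro N E ε hε
  obtain ⟨K, δ, hδ, H⟩ := main N E ε hε
  refine ⟨K, δ, hδ, fun X hX => ?_⟩
  have part2 : ∀ A B : ℤ, 4 * A ^ 3 + 27 * B ^ 2 ≠ 0 →
      ((max |A| |B| : ℤ) : ℝ) ≤ Real.exp ((X : ℝ) ^ δ) →
      ((LargePoints N E X δ A B (((X : ℤ) * max |A| |B|) ^ K)).ncard : ℝ) ≤ 2 * (X : ℝ) ^ ε := by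
    intro A B hD hAB0
    have hA : ((|A| : ℤ) : ℝ) ≤ Real.exp ((X : ℝ) ^ δ) :=
      le_trans (by exact_mod_cast le_max_left _ _) hAB0
    have hB : ((|B| : ℤ) : ℝ) ≤ Real.exp ((X : ℝ) ^ δ) :=
      le_trans (by exact_mod_cast le_max_right _ _) hAB0
    have hfin := finite_pts N E X δ A B (((X : ℤ) * max |A| |B|) ^ K)
    have hAB := ne_of_disc hD
    have hX1 : (1 : ℤ) ≤ (X : ℤ) ^ E := one_le_pow₀ (by exact_mod_cast (by omega : 1 ≤ X))
    have hLP : ∀ P ∈ LargePoints N E X δ A B (((X : ℤ) * max |A| |B|) ^ K),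
        LP N E K δ X A B 1 1 P.1 P.2 := by
      rintro P ⟨h1, h2, h3, h4⟩
      refine ⟨by simpa using hX1, by simpa using hX1, by simpa using hAB, ?_, h2, h3, h4⟩
      rw [mul_one, mul_one]
      exact h1
    have key : ∀ T : Finset (ℤ × ℤ), (∀ P ∈ T, P ∈ LargePoints N E X δ A B (((X : ℤ) * max |A| |B|) ^ K)) →
        (∀ P ∈ T, ∀ P' ∈ T, P.2 = -P'.2 → P.2 = P'.2) → (T.card : ℝ) ≤ (X : ℝ) ^ ε := by
      intro T hT1 hT2
      refine H X hX A B hA hB _ T (fun _ => 1) (fun _ => 1) Prod.fst Prod.snd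
        (fun P hP => hLP P (hT1 P hP)) ?_
      intro P hP P' hP' hne ⟨r, r0, r1, r2, r3, r4⟩
      rw [mul_one] at r1 r2
      obtain ⟨e1, e2⟩ := same_curve hAB (⟨r1, r2, r3, r4⟩ : Scales r A B P.1 P.2 A B P'.1 P'.2)
      apply hne
      refine Prod.ext e1 ?_
      rcases e2 with e2 | e2
      · exact e2
      · exact hT2 P hP P' hP' e2
    rw [Set.ncard_eq_toFinset_card _ hfin]
    obtain ⟨T, hT⟩ : ∃ T : Finset (ℤ × ℤ), T = hfin.toFinset := ⟨_, rfl⟩
    have hm : ∀ P ∈ T, P ∈ LargePoints N E X δ A B (((X : ℤ) * max |A| |B|) ^ K) := by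
      intro P hP
      rw [hT] at hP
      exact hfin.mem_toFinset.1 hP
    rw [← hT]
    have h1 := key (T.filter fun P => 0 < P.2) (fun P hP => hm P (Finset.mem_filter.1 hP).1)
      (fun P hP P' hP' h => by
        have a1 := (Finset.mem_filter.1 hP).2
        have a2 := (Finset.mem_filter.1 hP').2
        omega)
    have h2 := key (T.filter fun P => ¬ 0 < P.2) (fun P hP => hm P (Finset.mem_filter.1 hP).1)
      (fun P hP P' hP' h => by
        have a1 := (Finset.mem_filter.1 hP).2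
        have a2 := (Finset.mem_filter.1 hP').2
        omega)
    have h3 : (T.card : ℝ) = ((T.filter fun P => 0 < P.2).card : ℝ) +
        ((T.filter fun P => ¬ 0 < P.2).card : ℝ) := by
      exact_mod_cast (Finset.card_filter_add_card_filter_not (s := T) (fun P => 0 < P.2)).symm
    linarith
  refine ⟨fun α β hα hβ => ?_, fun A B hD hAB => ⟨finite_pts _ _ _ _ _ _ _, part2 A B hD hAB⟩,
    fun A B hD hXM hAB => ⟨finite_pts _ _ _ _ _ _ _, ?_⟩⟩
  · obtain ⟨T, hT1, hT2, hT3⟩ := Pool.Agent.Y902.GN.max_sep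
      {s : ℤ × ℤ × ℤ × ℤ | LargePoint N E K δ X α β s.1 s.2.1 s.2.2.1 s.2.2.2}
      (fun s t => ∃ r : ℚ, r ≠ 0 ∧ Scales r s.1 s.2.1 s.2.2.1 s.2.2.2 t.1 t.2.1 t.2.2.1 t.2.2.2)
      (fun s => ⟨1, one_ne_zero, by simp [Scales]⟩)
      (fun s t => by
        rintro ⟨r, hr, h1, h2, h3, h4⟩
        refine ⟨r⁻¹, inv_ne_zero hr, ?_, ?_, ?_, ?_⟩
        · rw [h1]; field_simp
        · rw [h2]; field_simp
        · rw [h3]; field_simp
        · rw [h4]; field_simp)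
      ((X : ℝ) ^ ε) (fun T h1 h2 => sep (H X hX α β hα hβ) T h1 h2)
    exact ⟨T, hT2, hT1, fun A B x y h => hT3 (A, B, x, y) h⟩
  · refine le_trans ?_ (part2 A B hD hAB)
    have hsub : LargePoints N E X δ A B (max |A| |B| ^ (2 * K)) ⊆
        LargePoints N E X δ A B (((X : ℤ) * max |A| |B|) ^ K) := by
      rintro P ⟨h1, h2, h3, h4⟩
      refine ⟨h1, h2, lt_of_le_of_lt ?_ h3, h4⟩
      have h0 : (0 : ℤ) ≤ (X : ℤ) := by positivity
      have h5 : (X : ℤ) * max |A| |B| ≤ max |A| |B| ^ 2 := by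
        rw [pow_two]
        exact mul_le_mul_of_nonneg_right hXM (h0.trans hXM)
      rw [pow_mul]
      exact pow_le_pow_left₀ (mul_nonneg h0 (h0.trans hXM)) h5 _
    exact_mod_cast Set.ncard_le_ncard hsub (finite_pts _ _ _ _ _ _ _)

end Pool.Agent.Results.MP_a1107e_nt.LargeCoefficients
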